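import Mathlib

/-!
Project SC (helper229), problem MP_83fd13_an: the Laplacian and holomorphic changes of variables. helper563.
-/

set_option autoImplicit false

open Set Filter Topology MeasureTheory

namespace Pool.Agent.N563.SC

/-- The Laplacian of a function on the complex plane. -/
noncomputable def lap (u : ℂ → ℝ) (z : ℂ) : ℝ :=
  fderiv ℝ (fun w => fderiv ℝ u w 1) z 1 + fderiv ℝ (fun w => fderiv ℝ u w Complex.I) z Complex.I

theorem lap_congr {u v : ℂ → ℝ} {z : ℂ} (h : u =ᶠ[𝓝 z] v) : lap u z = lap v z := by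
  unfold lap
  have h1 : ∀ a : ℂ, (fun w => fderiv ℝ u w a) =ᶠ[𝓝 z] fun w => fderiv ℝ v w a := by
    intro a
    filter_upwards [h.eventuallyEq_nhds] with w hw
    rw [hw.fderiv_eq]
  rw [(h1 1).fderiv_eq, (h1 Complex.I).fderiv_eq]

theorem fderiv_two {U : ℂ → ℝ} {z : ℂ} (hU : ContDiffAt ℝ 2 U z) (a b : ℂ) :
    fderiv ℝ (fun w => fderiv ℝ U w a) z b = fderiv ℝ (fderiv ℝ U) z b a := by
  have h1 : DifferentiableAt ℝ (fderiv ℝ U) z :=
    (hU.fderiv_right (m := 1) (by norm_num)).differentiableAt (by norm_num)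
  rw [fderiv_clm_apply h1 (differentiableAt_const a)]
  simp

theorem lap_eq {U : ℂ → ℝ} {z : ℂ} (hU : ContDiffAt ℝ 2 U z) :
    lap U z = fderiv ℝ (fderiv ℝ U) z 1 1 + fderiv ℝ (fderiv ℝ U) z Complex.I Complex.I := by
  rw [lap, fderiv_two hU, fderiv_two hU]

/-- A bilinear form on the complex plane. -/
theorem bil_sum (B : ℂ →L[ℝ] ℂ →L[ℝ] ℝ) (a : ℂ) :
    B a a + B (a * Complex.I) (a * Complex.I) = ‖a‖ ^ 2 * (B 1 1 + B Complex.I Complex.I) := by
  have h1 : a = a.re • (1 : ℂ) + a.im • Complex.I := by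
    simp
  have h2 : a * Complex.I = (-a.im) • (1 : ℂ) + a.re • Complex.I := by
    apply Complex.ext <;> simp
  have h3 : ‖a‖ ^ 2 = a.re ^ 2 + a.im ^ 2 := by
    rw [Complex.sq_norm, Complex.normSq_apply]
    ring
  have e1 : B a a = a.re ^ 2 * B 1 1 + a.re * a.im * (B 1 Complex.I + B Complex.I 1) +
      a.im ^ 2 * B Complex.I Complex.I := by
    conv_lhs => rw [h1]
    simp only [map_add, map_smul, add_apply, smul_apply,
      smul_eq_mul]
    ring
  have e2 : B (a * Complex.I) (a * Complex.I) = a.im ^ 2 * B 1 1 -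
      a.re * a.im * (B 1 Complex.I + B Complex.I 1) + a.re ^ 2 * B Complex.I Complex.I := by
    rw [h2]
    simp only [map_add, map_smul, add_apply, smul_apply,
      smul_eq_mul]
    ring
  rw [e1, e2, h3]
  ring

/-- The Laplacian and holomorphic changes of variables. -/
theorem lap_comp {U : ℂ → ℝ} {g : ℂ → ℂ} {w : ℂ} (hU : ContDiffAt ℝ 2 U (g w))
    (hg : AnalyticAt ℂ g w) : lap (fun z => U (g z)) w = ‖deriv g w‖ ^ 2 * lap U (g w) := by
  have hgc : ContDiffAt ℝ 2 g w := (hg.contDiffAt (n := 2)).restrict_scalars ℝ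
  have hev : ∀ᶠ y in 𝓝 w, ContDiffAt ℝ 2 U (g y) ∧ AnalyticAt ℂ g y := by
    refine (hg.continuousAt.eventually (hU.eventually (by simp))).and hg.eventually_analyticAt
  have hfd : ∀ v : ℂ, (fun y => fderiv ℝ (fun z => U (g z)) y v) =ᶠ[𝓝 w]
      fun y => fderiv ℝ U (g y) (deriv g y * v) := by
    intro v
    filter_upwards [hev] with y hy
    have h1 : HasFDerivAt U (fderiv ℝ U (g y)) (g y) :=
      (hy.1.differentiableAt (by norm_num)).hasFDerivAt
    have h2 : HasFDerivAt g ((ContinuousLinearMap.toSpanSingleton ℂ (deriv g y)).restrictScalars ℝ)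
        y := hy.2.differentiableAt.hasDerivAt.hasFDerivAt.restrictScalars ℝ
    have h3 := (h1.comp y h2).fderiv
    have h4 : fderiv ℝ (fun z => U (g z)) y = fderiv ℝ (U ∘ g) y := rfl
    rw [h4, h3]
    simp [mul_comm]
  have hmain : ∀ v : ℂ, fderiv ℝ (fun y => fderiv ℝ (fun z => U (g z)) y v) w v =
      fderiv ℝ (fderiv ℝ U) (g w) (deriv g w * v) (deriv g w * v) +
        fderiv ℝ U (g w) (deriv (deriv g) w * v * v) := by
    intro v
    rw [(hfd v).fderiv_eq]
    have hD : DifferentiableAt ℝ (fderiv ℝ U) (g w) :=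
      (hU.fderiv_right (m := 1) (by norm_num)).differentiableAt (by norm_num)
    have hgd : HasFDerivAt g ((ContinuousLinearMap.toSpanSingleton ℂ (deriv g w)).restrictScalars ℝ)
        w := hg.differentiableAt.hasDerivAt.hasFDerivAt.restrictScalars ℝ
    have h1 : HasFDerivAt (fun y => fderiv ℝ U (g y)) ((fderiv ℝ (fderiv ℝ U) (g w)).comp
        ((ContinuousLinearMap.toSpanSingleton ℂ (deriv g w)).restrictScalars ℝ)) w :=
      hD.hasFDerivAt.comp w hgd
    have h2 : HasFDerivAt (fun y => deriv g y * v)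
        ((ContinuousLinearMap.toSpanSingleton ℂ (deriv (deriv g) w * v)).restrictScalars ℝ) w :=
      ((hg.deriv.differentiableAt.hasDerivAt.mul_const v).hasFDerivAt).restrictScalars ℝ
    have h3 := h1.clm_apply h2
    rw [h3.fderiv]
    simp [mul_comm]
    ring
  rw [lap, hmain 1, hmain Complex.I, lap_eq hU]
  have h5 := bil_sum (fderiv ℝ (fderiv ℝ U) (g w)) (deriv g w)
  have h6 : fderiv ℝ U (g w) (deriv (deriv g) w * Complex.I * Complex.I) =
      - fderiv ℝ U (g w) (deriv (deriv g) w * 1 * 1) := by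
    rw [mul_assoc, Complex.I_mul_I, mul_one, mul_one, mul_neg_one, map_neg]
  rw [h6, mul_one]
  linarith

end Pool.Agent.N563.SC
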