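import Mathlib

/-!
Project SC (helper229), problem MP_83fd13_an: a domain which is locally the sublevel set of a `C¹` function
with nonvanishing derivative is a Lipschitz domain. helper563.
-/

set_option autoImplicit false
set_option maxHeartbeats 1000000

open Set Filter Topology MeasureTheory

namespace Pool.Agent.N563.SC

/-- A domain which is locally the sublevel set of a `C¹` function with nonvanishing derivative is
locally the region above a Lipschitz graph. -/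
theorem lip_graph {Ω : Set (EuclideanSpace ℝ (Fin 2))} {F : EuclideanSpace ℝ (Fin 2) → ℝ}
    {p : EuclideanSpace ℝ (Fin 2)} (hF : ContDiffAt ℝ 1 F p) (hp : F p = 0)
    (hne : fderiv ℝ F p ≠ 0) (hΩ : ∀ᶠ x in 𝓝 p, (x ∈ Ω ↔ F x < 0)) :
    ∃ e f : EuclideanSpace ℝ (Fin 2), ‖e‖ = 1 ∧ ‖f‖ = 1 ∧
        @inner ℝ (EuclideanSpace ℝ (Fin 2)) _ e f = 0 ∧
        ∃ r : ℝ, 0 < r ∧ ∃ K : NNReal, ∃ g : ℝ → ℝ, LipschitzWith K g ∧
          ∀ x ∈ Metric.ball p r,
            (x ∈ Ω ↔ g (@inner ℝ (EuclideanSpace ℝ (Fin 2)) _ x e)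
              < @inner ℝ (EuclideanSpace ℝ (Fin 2)) _ x f) := by
  set n : (EuclideanSpace ℝ (Fin 2)) := gradient F p with hn
  have hinner : ∀ v : (EuclideanSpace ℝ (Fin 2)), @inner ℝ (EuclideanSpace ℝ (Fin 2)) _ n v = fderiv ℝ F p v := fun v => by
    rw [hn, gradient, InnerProductSpace.toDual_symm_apply]
  have hn0 : n ≠ 0 := by
    intro h
    apply hne
    ext v
    rw [← hinner, h, inner_zero_left]
    rfl
  set m : ℝ := ‖n‖ with hm
  have hmpos : 0 < m := norm_pos_iff.2 hn0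
  set f : (EuclideanSpace ℝ (Fin 2)) := (-(1 / m)) • n with hf
  have hfn : ‖f‖ = 1 := by
    rw [hf, norm_smul, norm_neg, norm_div, norm_one, Real.norm_eq_abs, abs_of_pos hmpos, ← hm]
    field_simp
  set e : (EuclideanSpace ℝ (Fin 2)) := !₂[-(f 1), f 0] with he
  have hsq : ∀ v : (EuclideanSpace ℝ (Fin 2)), ‖v‖ ^ 2 = v 0 ^ 2 + v 1 ^ 2 := fun v => by
    rw [EuclideanSpace.norm_sq_eq, Fin.sum_univ_two]
    simp
  have hin2 : ∀ v w : (EuclideanSpace ℝ (Fin 2)), @inner ℝ (EuclideanSpace ℝ (Fin 2)) _ v w = v 0 * w 0 + v 1 * w 1 := fun v w => by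
    rw [PiLp.inner_apply, Fin.sum_univ_two]
    simp [mul_comm]
  have he0 : e 0 = -(f 1) := rfl
  have he1 : e 1 = f 0 := rfl
  have hf2 : f 0 ^ 2 + f 1 ^ 2 = 1 := by rw [← hsq, hfn]; norm_num
  have hen : ‖e‖ = 1 := by
    have h1 : ‖e‖ ^ 2 = 1 := by
      rw [hsq, he0, he1]
      linarith [hf2, sq_nonneg (f 1)]
    nlinarith [norm_nonneg e]
  have hef : @inner ℝ (EuclideanSpace ℝ (Fin 2)) _ e f = 0 := by
    rw [hin2, he0, he1]
    ring
  have hnf : n = (-m) • f := by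
    rw [hf, smul_smul]
    have : -m * -(1 / m) = 1 := by field_simp
    rw [this, one_smul]
  -- coordinates
  have hdec : ∀ v : (EuclideanSpace ℝ (Fin 2)), v = @inner ℝ (EuclideanSpace ℝ (Fin 2)) _ v e • e + @inner ℝ (EuclideanSpace ℝ (Fin 2)) _ v f • f := by
    intro v
    ext i
    rw [hin2, hin2, he0, he1]
    fin_cases i
    · simp only [Fin.zero_eta, PiLp.add_apply, PiLp.smul_apply, smul_eq_mul, he0]
      linear_combination (-v.ofLp 0) * hf2
    · simp only [Fin.mk_one, PiLp.add_apply, PiLp.smul_apply, smul_eq_mul, he1]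
      linear_combination (-v.ofLp 1) * hf2
  have hnorm : ∀ v : (EuclideanSpace ℝ (Fin 2)), ‖v‖ ≤ |@inner ℝ (EuclideanSpace ℝ (Fin 2)) _ v e| + |@inner ℝ (EuclideanSpace ℝ (Fin 2)) _ v f| := by
    intro v
    conv_lhs => rw [hdec v]
    refine (norm_add_le _ _).trans ?_
    rw [norm_smul, norm_smul, hen, hfn, mul_one, mul_one, Real.norm_eq_abs, Real.norm_eq_abs]
  -- strict differentiability
  have hstrict : HasStrictFDerivAt F (fderiv ℝ F p) p := hF.hasStrictFDerivAt one_ne_zero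
  have hev : ∀ᶠ q : (EuclideanSpace ℝ (Fin 2)) × (EuclideanSpace ℝ (Fin 2)) in 𝓝 (p, p), ‖F q.1 - F q.2 - fderiv ℝ F p (q.1 - q.2)‖ ≤
      (m / 2) * ‖q.1 - q.2‖ := by
    have := hstrict.isLittleO.def (half_pos hmpos)
    exact this
  rw [nhds_prod_eq] at hev
  obtain ⟨δ1, hδ1, hev1⟩ : ∃ δ > 0, ∀ x ∈ Metric.ball p δ, ∀ y ∈ Metric.ball p δ,
      |F x - F y - fderiv ℝ F p (x - y)| ≤ (m / 2) * ‖x - y‖ := by
    obtain ⟨s, hs, hss⟩ := Filter.mem_prod_same_iff.1 hev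
    obtain ⟨δ, hδ, hb⟩ := Metric.mem_nhds_iff.1 hs
    exact ⟨δ, hδ, fun x hx y hy => hss (mk_mem_prod (hb hx) (hb hy))⟩
  obtain ⟨δ2, hδ2, hev2⟩ := Metric.eventually_nhds_iff_ball.1 hΩ
  obtain ⟨δ3, hδ3, hev3⟩ : ∃ δ > 0, ContinuousOn F (Metric.ball p δ) := by
    obtain ⟨u, hu, hcu⟩ := hF.contDiffOn (m := 1) le_rfl (by simp)
    obtain ⟨δ, hδ, hb⟩ := Metric.mem_nhds_iff.1 hu
    exact ⟨δ, hδ, hcu.continuousOn.mono hb⟩
  set δ := min δ1 (min δ2 δ3) with hδ
  have hδpos : 0 < δ := lt_min hδ1 (lt_min hδ2 hδ3)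
  set r := δ / 2 with hr
  have hrpos : 0 < r := half_pos hδpos
  have hb1 : ∀ {x}, x ∈ Metric.ball p δ → x ∈ Metric.ball p δ1 := fun hx =>
    Metric.ball_subset_ball (min_le_left _ _) hx
  have hb2 : ∀ {x}, x ∈ Metric.ball p δ → x ∈ Metric.ball p δ2 := fun hx =>
    Metric.ball_subset_ball ((min_le_right _ _).trans (min_le_left _ _)) hx
  have hb3 : ∀ {x}, x ∈ Metric.ball p δ → x ∈ Metric.ball p δ3 := fun hx =>
    Metric.ball_subset_ball ((min_le_right _ _).trans (min_le_right _ _)) hx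
  -- the key estimate
  have key : ∀ x ∈ Metric.ball p δ, ∀ y ∈ Metric.ball p δ,
      |F x - F y + m * @inner ℝ (EuclideanSpace ℝ (Fin 2)) _ (x - y) f| ≤
        (m / 2) * (|@inner ℝ (EuclideanSpace ℝ (Fin 2)) _ (x - y) e| + |@inner ℝ (EuclideanSpace ℝ (Fin 2)) _ (x - y) f|) := by
    intro x hx y hy
    have h1 := hev1 x (hb1 hx) y (hb1 hy)
    have h2 : fderiv ℝ F p (x - y) = -(m * @inner ℝ (EuclideanSpace ℝ (Fin 2)) _ (x - y) f) := by
      rw [← hinner]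
      conv_lhs => rw [hnf]
      rw [inner_smul_left, real_inner_comm]
      simp
    rw [h2, sub_neg_eq_add] at h1
    exact h1.trans (mul_le_mul_of_nonneg_left (hnorm _) (by positivity))
  -- points over s
  have hP : ∀ s h : ℝ, |s| < r → |h| ≤ r → p + s • e + h • f ∈ Metric.ball p δ := by
    intro s h hs hh
    rw [Metric.mem_ball, dist_eq_norm]
    have : p + s • e + h • f - p = s • e + h • f := by abel
    rw [this]
    refine (norm_add_le _ _).trans_lt ?_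
    rw [norm_smul, norm_smul, hen, hfn, mul_one, mul_one, Real.norm_eq_abs, Real.norm_eq_abs]
    linarith
  have hee : @inner ℝ (EuclideanSpace ℝ (Fin 2)) _ e e = 1 := by rw [real_inner_self_eq_norm_sq, hen]; norm_num
  have hff : @inner ℝ (EuclideanSpace ℝ (Fin 2)) _ f f = 1 := by rw [real_inner_self_eq_norm_sq, hfn]; norm_num
  have hfe : @inner ℝ (EuclideanSpace ℝ (Fin 2)) _ f e = 0 := by rw [real_inner_comm]; exact hef
  have hie : ∀ s h : ℝ, @inner ℝ (EuclideanSpace ℝ (Fin 2)) _ (p + s • e + h • f) e = @inner ℝ (EuclideanSpace ℝ (Fin 2)) _ p e + s := by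
    intro s h
    rw [inner_add_left, inner_add_left, inner_smul_left, inner_smul_left, hee, hfe]
    simp
  have hif : ∀ s h : ℝ, @inner ℝ (EuclideanSpace ℝ (Fin 2)) _ (p + s • e + h • f) f = @inner ℝ (EuclideanSpace ℝ (Fin 2)) _ p f + h := by
    intro s h
    rw [inner_add_left, inner_add_left, inner_smul_left, inner_smul_left, hff, hef]
    simp
  have hex : ∀ s : ℝ, |s| < r → ∃ h : ℝ, |h| ≤ r ∧ F (p + s • e + h • f) = 0 := by
    intro s hs
    have hpp : p ∈ Metric.ball p δ := Metric.mem_ball_self hδpos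
    have hcont : ContinuousOn (fun h : ℝ => F (p + s • e + h • f)) (Icc (-r) r) := by
      refine hev3.comp (by fun_prop) fun h hh => hb3 (hP s h hs (abs_le.2 hh))
    have hdiff : ∀ h : ℝ, |@inner ℝ (EuclideanSpace ℝ (Fin 2)) _ (p + s • e + h • f - p) e| = |s| ∧
        @inner ℝ (EuclideanSpace ℝ (Fin 2)) _ (p + s • e + h • f - p) f = h := by
      intro h
      rw [inner_sub_left, inner_sub_left, hie, hif]
      constructor
      · congr 1; ring
      · ring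
    have hneg : F (p + s • e + r • f) ≤ 0 := by
      have h1 := key _ (hP s r hs (by rw [abs_of_pos hrpos])) p hpp
      rw [(hdiff r).1, (hdiff r).2, hp, sub_zero, abs_of_pos hrpos] at h1
      have h2 := (abs_le.1 h1).2
      nlinarith
    have hpos : 0 ≤ F (p + s • e + (-r) • f) := by
      have h1 := key _ (hP s (-r) hs (by rw [abs_neg, abs_of_pos hrpos])) p hpp
      rw [(hdiff (-r)).1, (hdiff (-r)).2, hp, sub_zero, abs_neg, abs_of_pos hrpos] at h1
      have h2 := (abs_le.1 h1).1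
      nlinarith
    obtain ⟨h, hh, h0⟩ := intermediate_value_Icc' (by linarith : -r ≤ r) hcont ⟨hneg, hpos⟩
    exact ⟨h, abs_le.2 hh, h0⟩
  -- zero set is a Lipschitz graph
  have hzero : ∀ x ∈ Metric.ball p δ, ∀ y ∈ Metric.ball p δ, F x = 0 → F y = 0 →
      |@inner ℝ (EuclideanSpace ℝ (Fin 2)) _ (x - y) f| ≤ |@inner ℝ (EuclideanSpace ℝ (Fin 2)) _ (x - y) e| := by
    intro x hx y hy h1 h2
    have h3 := key x hx y hy
    rw [h1, h2, sub_zero, zero_add, abs_mul, abs_of_pos hmpos] at h3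
    nlinarith
  have hex' : ∀ s : ℝ, ∃ h : ℝ, |s - @inner ℝ (EuclideanSpace ℝ (Fin 2)) _ p e| < r → |h| ≤ r ∧
      F (p + (s - @inner ℝ (EuclideanSpace ℝ (Fin 2)) _ p e) • e + h • f) = 0 := by
    intro s
    by_cases hs : |s - @inner ℝ (EuclideanSpace ℝ (Fin 2)) _ p e| < r
    · obtain ⟨h, h1, h2⟩ := hex _ hs
      exact ⟨h, fun _ => ⟨h1, h2⟩⟩
    · exact ⟨0, fun h => absurd h hs⟩
  choose hh0 hh0s using hex'
  obtain ⟨g0, hg0⟩ : ∃ g0 : ℝ → ℝ, ∀ s, g0 s = @inner ℝ (EuclideanSpace ℝ (Fin 2)) _ p f + hh0 s := ⟨_, fun _ => rfl⟩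
  have hg0s : ∀ s (hs : |s - @inner ℝ (EuclideanSpace ℝ (Fin 2)) _ p e| < r), ∃ h : ℝ, |h| ≤ r ∧
      g0 s = @inner ℝ (EuclideanSpace ℝ (Fin 2)) _ p f + h ∧ F (p + (s - @inner ℝ (EuclideanSpace ℝ (Fin 2)) _ p e) • e + h • f) = 0 :=
    fun s hs => ⟨hh0 s, (hh0s s hs).1, hg0 s, (hh0s s hs).2⟩
  obtain ⟨I, hI⟩ : ∃ I : Set ℝ, ∀ s, s ∈ I ↔ |s - @inner ℝ (EuclideanSpace ℝ (Fin 2)) _ p e| < r :=
    ⟨{s | |s - @inner ℝ (EuclideanSpace ℝ (Fin 2)) _ p e| < r}, fun _ => Iff.rfl⟩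
  have hlip : LipschitzOnWith 1 g0 I := by
    refine LipschitzOnWith.of_dist_le_mul fun s hs s' hs' => ?_
    rw [hI] at hs hs'
    obtain ⟨h, hh, hgs, hz⟩ := hg0s s hs
    obtain ⟨h', hh', hgs', hz'⟩ := hg0s s' hs'
    have h1 := hzero _ (hP _ h hs hh) _ (hP _ h' hs' hh') hz hz'
    rw [inner_sub_left, inner_sub_left, hie, hie, hif, hif] at h1
    rw [Real.dist_eq, Real.dist_eq, hgs, hgs', NNReal.coe_one, one_mul]
    refine h1.trans (le_of_eq ?_)
    congr 1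
    ring
  obtain ⟨g, hgl, hgeq⟩ := hlip.extend_real
  refine ⟨e, f, hen, hfn, hef, r, hrpos, 1, g, hgl, fun x hx => ?_⟩
  have hxδ : x ∈ Metric.ball p δ := Metric.ball_subset_ball (by linarith) hx
  rw [hev2 x (hb2 hxδ)]
  have hs : |@inner ℝ (EuclideanSpace ℝ (Fin 2)) _ x e - @inner ℝ (EuclideanSpace ℝ (Fin 2)) _ p e| < r := by
    rw [← inner_sub_left]
    refine (abs_real_inner_le_norm _ _).trans_lt ?_
    rw [hen, mul_one, ← dist_eq_norm]
    exact hx
  obtain ⟨h, hh, hgs, hz⟩ := hg0s _ hs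
  rw [← hgeq ((hI _).2 hs), hgs]
  set y := p + (@inner ℝ (EuclideanSpace ℝ (Fin 2)) _ x e - @inner ℝ (EuclideanSpace ℝ (Fin 2)) _ p e) • e + h • f with hy
  have hyδ : y ∈ Metric.ball p δ := hP _ h hs hh
  have h1 := key x hxδ y hyδ
  have h2 : @inner ℝ (EuclideanSpace ℝ (Fin 2)) _ (x - y) e = 0 := by
    rw [inner_sub_left, hy, hie]
    ring
  have h3 : @inner ℝ (EuclideanSpace ℝ (Fin 2)) _ (x - y) f = @inner ℝ (EuclideanSpace ℝ (Fin 2)) _ x f - (@inner ℝ (EuclideanSpace ℝ (Fin 2)) _ p f + h) := by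
    rw [inner_sub_left, hy, hif]
  rw [h2, h3, hz, sub_zero, abs_zero, zero_add] at h1
  set τ := @inner ℝ (EuclideanSpace ℝ (Fin 2)) _ x f - (@inner ℝ (EuclideanSpace ℝ (Fin 2)) _ p f + h) with hτ
  constructor
  · intro hneg
    by_contra hcon
    push Not at hcon
    have hτ0 : τ ≤ 0 := by rw [hτ]; linarith
    rw [abs_of_nonpos hτ0] at h1
    have h4 := (abs_le.1 h1).1
    nlinarith
  · intro hlt
    have hτ0 : 0 < τ := by rw [hτ]; linarith
    rw [abs_of_pos hτ0] at h1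
    have h4 := (abs_le.1 h1).2
    nlinarith

end Pool.Agent.N563.SC
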