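import Mathlib

/-!
Project SC (helper229), problem MP_83fd13_an: an injective holomorphic function on a neighbourhood of the
closed unit disc which maps the unit circle to a circle with centre `f 0` is linear. helper563 (after
W428/HP/NB).
-/

set_option autoImplicit false

open Set Filter Topology MeasureTheory

namespace Pool.Agent.N563.SC

theorem nb {f : ℂ → ℂ} {R ρ : ℝ} (hR : 1 < R) (hf : DifferentiableOn ℂ f (Metric.ball 0 R))
    (hinj : InjOn f (Metric.ball 0 R)) (hf0 : f 0 = 0) (hd0 : deriv f 0 ≠ 0) (hρ : 0 < ρ)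
    (hbd : ∀ z : ℂ, ‖z‖ = 1 → ‖f z‖ = ρ) :
    ∃ a : ℂ, ∀ z ∈ Metric.ball (0 : ℂ) 1, f z = a * z := by
  have hRpos : 0 < R := one_pos.trans hR
  have hne : ∀ z ∈ Metric.ball (0 : ℂ) R, dslope f 0 z ≠ 0 := by
    intro z hz
    by_cases h0 : z = 0
    · subst h0
      rwa [dslope_same]
    · rw [dslope_of_ne _ h0, slope_def_field, hf0, sub_zero, sub_zero]
      refine div_ne_zero ?_ h0
      intro h1
      exact h0 (hinj hz (Metric.mem_ball_self hRpos) (h1.trans hf0.symm))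
  have hmul : ∀ z, f z = dslope f 0 z * z := by
    intro z
    by_cases h0 : z = 0
    · subst h0
      rw [hf0, mul_zero]
    · rw [dslope_of_ne _ h0, slope_def_field, hf0, sub_zero, sub_zero, div_mul_cancel₀ _ h0]
  have hdiff : DifferentiableOn ℂ (dslope f 0) (Metric.ball (0 : ℂ) R) :=
    (Complex.differentiableOn_dslope (Metric.ball_mem_nhds _ hRpos)).2 hf
  have hn : ∀ z : ℂ, ‖z‖ = 1 → ‖dslope f 0 z‖ = ρ := by
    intro z hz
    have h1 := hbd z hz
    rw [hmul z, norm_mul, hz, mul_one] at h1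
    exact h1
  have hcl : closure (Metric.ball (0 : ℂ) 1) ⊆ Metric.ball (0 : ℂ) R := by
    rw [closure_ball _ one_ne_zero]
    exact Metric.closedBall_subset_ball hR
  have hfr : ∀ z ∈ frontier (Metric.ball (0 : ℂ) 1), ‖z‖ = 1 := by
    intro z hz
    rw [frontier_ball _ one_ne_zero] at hz
    simpa using hz
  have hdc : DiffContOnCl ℂ (dslope f 0) (Metric.ball (0 : ℂ) 1) := (hdiff.mono hcl).diffContOnCl
  have hdc' : DiffContOnCl ℂ (fun z => (dslope f 0 z)⁻¹) (Metric.ball (0 : ℂ) 1) :=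
    ((hdiff.mono hcl).inv fun z hz => hne z (hcl hz)).diffContOnCl
  have hle : ∀ z ∈ Metric.ball (0 : ℂ) 1, ‖dslope f 0 z‖ ≤ ρ := by
    intro z hz
    exact Complex.norm_le_of_forall_mem_frontier_norm_le Metric.isBounded_ball hdc
      (fun z hz => (hn z (hfr z hz)).le) (subset_closure hz)
  have hge : ∀ z ∈ Metric.ball (0 : ℂ) 1, ρ ≤ ‖dslope f 0 z‖ := by
    intro z hz
    have h1 : ‖(dslope f 0 z)⁻¹‖ ≤ ρ⁻¹ :=
      Complex.norm_le_of_forall_mem_frontier_norm_le Metric.isBounded_ball hdc'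
        (fun z hz => by
          rw [norm_inv, hn z (hfr z hz)]) (subset_closure hz)
    rw [norm_inv] at h1
    have h2 : 0 < ‖dslope f 0 z‖ :=
      norm_pos_iff.2 (hne z (hcl (subset_closure hz)))
    exact (inv_le_inv₀ h2 hρ).1 h1
  have h0m : (0 : ℂ) ∈ Metric.ball (0 : ℂ) 1 := Metric.mem_ball_self one_pos
  have hmax : IsMaxOn (norm ∘ dslope f 0) (Metric.ball (0 : ℂ) 1) 0 := by
    intro z hz
    exact (hle z hz).trans (hge 0 h0m)
  have hcst := Complex.eqOn_of_isPreconnected_of_isMaxOn_norm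
    (convex_ball (0 : ℂ) 1).isPreconnected Metric.isOpen_ball hdc.differentiableOn h0m hmax
  refine ⟨dslope f 0 0, fun z hz => ?_⟩
  rw [hmul z, hcst hz]
  rfl

/-- A disc which is invariant under a rotation is centred at `0`. -/
theorem centre_zero {b ω : ℂ} {r : ℝ} (hr : 0 < r) (hω : ‖ω‖ = 1) (hω1 : ω ≠ 1)
    (h : ∀ p ∈ Metric.ball b r, ω * p ∈ Metric.ball b r) : b = 0 := by
  by_contra hb
  set d := ω * b - b with hd
  have hd0 : d ≠ 0 := by
    rw [hd, ← sub_one_mul]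
    exact mul_ne_zero (sub_ne_zero.2 hω1) hb
  have hdn : 0 < ‖d‖ := norm_pos_iff.2 hd0
  have hω0 : ω ≠ 0 := by
    intro h
    rw [h, norm_zero] at hω
    exact zero_ne_one hω
  have hdr : ‖d‖ < r := by
    have := h b (Metric.mem_ball_self hr)
    rwa [Metric.mem_ball, dist_eq_norm] at this
  set s : ℝ := r - ‖d‖ / 2 with hs
  have hspos : 0 < s := by rw [hs]; linarith
  have h1 : b + ((s / ‖d‖ : ℝ) : ℂ) * (ω⁻¹ * d) ∈ Metric.ball b r := by
    rw [Metric.mem_ball, dist_eq_norm, add_sub_cancel_left, norm_mul, norm_mul, norm_inv, hω,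
      inv_one, one_mul, Complex.norm_real, Real.norm_eq_abs, abs_of_pos (by positivity),
      div_mul_cancel₀ _ hdn.ne']
    rw [hs]; linarith
  have h2 := h _ h1
  have h3 : ω * (b + ((s / ‖d‖ : ℝ) : ℂ) * (ω⁻¹ * d)) - b = ((1 + s / ‖d‖ : ℝ) : ℂ) * d := by
    rw [mul_add, ← mul_assoc, mul_comm ω ((s / ‖d‖ : ℝ) : ℂ), mul_assoc, ← mul_assoc ω,
      mul_inv_cancel₀ hω0, one_mul]
    push_cast
    rw [hd]
    ring
  rw [Metric.mem_ball, dist_eq_norm, h3, norm_mul, Complex.norm_real, Real.norm_eq_abs,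
    abs_of_pos (by positivity), add_mul, one_mul, div_mul_cancel₀ _ hdn.ne'] at h2
  rw [hs] at h2
  linarith

end Pool.Agent.N563.SC
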