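import Mathlib

/-!
Project SC (helper229), problem MP_83fd13_an: topology of the image of the unit disc under a map which is
injective on a larger disc. helper563.
-/

set_option autoImplicit false

open Set Filter Topology MeasureTheory

namespace Pool.Agent.N563.SC

/-- The standard isometry. -/
noncomputable abbrev io : ℂ ≃ₗᵢ[ℝ] EuclideanSpace ℝ (Fin 2) := Complex.orthonormalBasisOneI.repr

/-- A holomorphic function with derivative close to a positive constant is an open partial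
homeomorphism. -/
theorem exists_oph {f : ℂ → ℂ} {R t κ : ℝ} (hR : 0 < R) (hκ : κ < t)
    (hf : DifferentiableOn ℂ f (Metric.ball 0 R))
    (hd : ∀ z ∈ Metric.ball (0 : ℂ) R, ‖deriv f z - t‖ ≤ κ) :
    ∃ Φ : OpenPartialHomeomorph ℂ ℂ, Φ.source = Metric.ball 0 R ∧ (Φ : ℂ → ℂ) = f := by
  have hκ0 : 0 ≤ κ := (norm_nonneg _).trans (hd 0 (Metric.mem_ball_self hR))
  have ht : 0 < t := hκ0.trans_lt hκ
  have ht0 : (t : ℂ) ≠ 0 := by exact_mod_cast ht.ne'
  set L : ℂ ≃L[ℂ] ℂ := ContinuousLinearEquiv.unitsEquivAut ℂ (Units.mk0 (t : ℂ) ht0) with hL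
  have hLa : ∀ x, (L : ℂ →L[ℂ] ℂ) x = x * t := fun x => rfl
  have hLs : ∀ x, (L.symm : ℂ →L[ℂ] ℂ) x = x * (t : ℂ)⁻¹ := fun x => rfl
  have happ : ApproximatesLinearOn f (L : ℂ →L[ℂ] ℂ) (Metric.ball 0 R) κ.toNNReal := by
    intro x hx y hy
    have h := (convex_ball (0 : ℂ) R).norm_image_sub_le_of_norm_hasDerivWithin_le (𝕜 := ℂ)
      (f := fun z => f z - t * z) (f' := fun z => deriv f z - t) (C := κ) (fun z hz => ?_) hd hy hx
    · simp only [hLa]
      rw [Real.coe_toNNReal κ hκ0]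
      calc ‖f x - f y - (x - y) * t‖ = ‖(f x - t * x) - (f y - t * y)‖ := by congr 1; ring
        _ ≤ κ * ‖x - y‖ := h
    · have h1 : HasDerivAt f (deriv f z) z :=
        ((hf z hz).differentiableAt (Metric.isOpen_ball.mem_nhds hz)).hasDerivAt
      have h2 := h1.sub ((hasDerivAt_id z).const_mul (t : ℂ))
      simp only [mul_one] at h2
      exact h2.hasDerivWithinAt
  have hN : ‖(L.symm : ℂ →L[ℂ] ℂ)‖ ≤ t⁻¹ := by
    refine ContinuousLinearMap.opNorm_le_bound _ (by positivity) fun x => ?_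
    rw [hLs, norm_mul, norm_inv, Complex.norm_real, Real.norm_eq_abs, abs_of_pos ht, mul_comm]
  have hNpos : 0 < ‖(L.symm : ℂ →L[ℂ] ℂ)‖ := by
    rw [norm_pos_iff]
    intro h
    have h1 := hLs 1
    rw [h] at h1
    simp only [zero_apply, one_mul] at h1
    exact (inv_ne_zero ht0) h1.symm
  have hc : κ.toNNReal < ‖(L.symm : ℂ →L[ℂ] ℂ)‖₊⁻¹ := by
    rw [← NNReal.coe_lt_coe, NNReal.coe_inv, coe_nnnorm, Real.coe_toNNReal κ hκ0]
    refine hκ.trans_le ?_
    rw [le_inv_comm₀ ht hNpos]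
    exact hN
  exact ⟨happ.toOpenPartialHomeomorph f _ (Or.inr hc) Metric.isOpen_ball, rfl, rfl⟩

section top

variable (Φ : OpenPartialHomeomorph ℂ (EuclideanSpace ℝ (Fin 2)))
  (hs : Metric.closedBall (0 : ℂ) 1 ⊆ Φ.source)

include hs

theorem top_open : IsOpen (Φ '' Metric.ball (0 : ℂ) 1) :=
  Φ.isOpen_image_of_subset_source Metric.isOpen_ball (Metric.ball_subset_closedBall.trans hs)

theorem top_compact : IsCompact (Φ '' Metric.closedBall (0 : ℂ) 1) :=
  (isCompact_closedBall _ _).image_of_continuousOn (Φ.continuousOn.mono hs)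

theorem top_closure : closure (Φ '' Metric.ball (0 : ℂ) 1) = Φ '' Metric.closedBall (0 : ℂ) 1 := by
  refine Subset.antisymm (closure_minimal (image_mono Metric.ball_subset_closedBall)
    (top_compact Φ hs).isClosed) ?_
  have h1 : ContinuousOn Φ (closure (Metric.ball (0 : ℂ) 1)) := by
    rw [closure_ball _ one_ne_zero]
    exact Φ.continuousOn.mono hs
  have h2 := h1.image_closure
  rw [closure_ball _ one_ne_zero] at h2
  exact h2

theorem top_frontier : frontier (Φ '' Metric.ball (0 : ℂ) 1) = Φ '' Metric.sphere (0 : ℂ) 1 := by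
  rw [(top_open Φ hs).frontier_eq, top_closure Φ hs]
  ext x
  constructor
  · rintro ⟨⟨z, hz, rfl⟩, hn⟩
    refine ⟨z, ?_, rfl⟩
    rw [mem_closedBall_zero_iff] at hz
    rw [mem_sphere_zero_iff_norm]
    refine le_antisymm hz ?_
    by_contra hlt
    push Not at hlt
    exact hn ⟨z, by rwa [mem_ball_zero_iff], rfl⟩
  · rintro ⟨z, hz, rfl⟩
    refine ⟨⟨z, Metric.sphere_subset_closedBall hz, rfl⟩, ?_⟩
    rintro ⟨w, hw, hwz⟩
    have h := Φ.injOn (hs (Metric.ball_subset_closedBall hw))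
      (hs (Metric.sphere_subset_closedBall hz)) hwz
    subst h
    rw [mem_sphere_zero_iff_norm] at hz
    rw [mem_ball_zero_iff] at hw
    linarith

theorem top_bounded : Bornology.IsBounded (Φ '' Metric.ball (0 : ℂ) 1) :=
  (top_compact Φ hs).isBounded.subset (image_mono Metric.ball_subset_closedBall)

theorem top_connected : IsConnected (Φ '' Metric.ball (0 : ℂ) 1) := by
  refine IsConnected.image ?_ _ (Φ.continuousOn.mono (Metric.ball_subset_closedBall.trans hs))
  exact (convex_ball (0 : ℂ) 1).isConnected ⟨0, Metric.mem_ball_self one_pos⟩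

theorem top_simply : SimplyConnectedSpace (Φ '' Metric.ball (0 : ℂ) 1) := by
  have h1 : ContractibleSpace (Metric.ball (0 : ℂ) 1) :=
    (convex_ball (0 : ℂ) 1).contractibleSpace ⟨0, Metric.mem_ball_self one_pos⟩
  have e : Metric.ball (0 : ℂ) 1 ≃ₜ Φ '' Metric.ball (0 : ℂ) 1 :=
    Φ.homeomorphOfImageSubsetSource (Metric.ball_subset_closedBall.trans hs) rfl
  have h2 : ContractibleSpace (Φ '' Metric.ball (0 : ℂ) 1) := e.symm.contractibleSpace
  exact SimplyConnectedSpace.ofContractible _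

theorem top_circle : Nonempty (frontier (Φ '' Metric.ball (0 : ℂ) 1) ≃ₜ
    Metric.sphere (0 : EuclideanSpace ℝ (Fin 2)) 1) := by
  rw [top_frontier Φ hs]
  have e : Metric.sphere (0 : ℂ) 1 ≃ₜ Φ '' Metric.sphere (0 : ℂ) 1 :=
    Φ.homeomorphOfImageSubsetSource (Metric.sphere_subset_closedBall.trans hs) rfl
  have e2 : Metric.sphere (0 : ℂ) 1 ≃ₜ Metric.sphere (0 : EuclideanSpace ℝ (Fin 2)) 1 :=
    io.toHomeomorph.subtype fun z => by
      simp
  exact ⟨e.symm.trans e2⟩

theorem top_null (hd : DifferentiableOn ℝ Φ Φ.source) :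
    volume (frontier (Φ '' Metric.ball (0 : ℂ) 1)) = 0 := by
  rw [top_frontier Φ hs]
  set S : Set (EuclideanSpace ℝ (Fin 2)) := io '' Metric.sphere (0 : ℂ) 1 with hS
  have hSs : S = Metric.sphere (0 : (EuclideanSpace ℝ (Fin 2))) 1 := by
    rw [hS]
    ext x
    constructor
    · rintro ⟨z, hz, rfl⟩
      simpa using hz
    · intro hx
      exact ⟨io.symm x, by
        rw [mem_sphere_zero_iff_norm, LinearIsometryEquiv.norm_map]
        exact mem_sphere_zero_iff_norm.1 hx, io.apply_symm_apply x⟩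
  have h1 : Φ '' Metric.sphere (0 : ℂ) 1 = (fun x : (EuclideanSpace ℝ (Fin 2)) => Φ (io.symm x)) '' S := by
    rw [hS, image_image]
    simp
  rw [h1]
  refine addHaar_image_eq_zero_of_differentiableOn_of_addHaar_eq_zero volume ?_ ?_
  · refine hd.comp (io.symm.differentiable.differentiableOn) ?_
    rintro _ ⟨z, hz, rfl⟩
    simpa using hs (Metric.sphere_subset_closedBall hz)
  · rw [hSs]
    exact Measure.addHaar_sphere _ _ _

end top

end Pool.Agent.N563.SC
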