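import Pool.Agent.N563.SC.Weak
import Pool.Agent.N563.SC.Lip
import Pool.Agent.N563.SC.Top
import Pool.Agent.N563.SC.NB
import Pool.Agent.N563.SC.Lap

/-!
Project SC (helper229), problem MP_83fd13_an: the final step. A classical solution of the overdetermined
problem, pulled back to the unit disc by a nonlinear univalent map with a rotational symmetry, gives
the negation of Schiffer's conjecture exactly as in frozen statement `S05252`. helper563.
-/

set_option autoImplicit false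
set_option maxHeartbeats 1000000

open Set Filter Topology MeasureTheory

namespace Pool.Agent.N563.SC

/-- The final step of project SC. -/
theorem final {f : ℂ → ℂ} {U : ℂ → ℝ} {R t κ lam c : ℝ} {ω : ℂ} (hR : 1 < R) (hlam : 0 < lam)
    (hκ : κ < t) (hf : DifferentiableOn ℂ f (Metric.ball 0 R))
    (hd : ∀ z ∈ Metric.ball (0 : ℂ) R, ‖deriv f z - t‖ ≤ κ)
    (hU : ContDiffOn ℝ 2 U (Metric.ball 0 R))
    (heq : ∀ z ∈ Metric.ball (0 : ℂ) 1, lap U z = -(lam * ‖deriv f z‖ ^ 2 * U z))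
    (hbd : ∀ z : ℂ, ‖z‖ = 1 → U z = c ∧ fderiv ℝ U z = 0)
    (hne : ∃ z ∈ Metric.ball (0 : ℂ) 1, U z ≠ 0)
    (hω : ‖ω‖ = 1) (hω1 : ω ≠ 1) (hsym : ∀ z ∈ Metric.ball (0 : ℂ) 1, f (ω * z) = ω * f z)
    (hnon : ¬ ∃ a : ℂ, ∀ z ∈ Metric.ball (0 : ℂ) 1, f z = a * z) :
    ¬ (∀ Ω : Set (EuclideanSpace ℝ (Fin 2)),
    IsOpen Ω → Bornology.IsBounded Ω → IsConnected Ω → SimplyConnectedSpace Ω →
    Nonempty (frontier Ω ≃ₜ Metric.sphere (0 : EuclideanSpace ℝ (Fin 2)) 1) →
    (∀ p ∈ frontier Ω, ∃ e f : EuclideanSpace ℝ (Fin 2), ‖e‖ = 1 ∧ ‖f‖ = 1 ∧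
        @inner ℝ (EuclideanSpace ℝ (Fin 2)) _ e f = 0 ∧
        ∃ r : ℝ, 0 < r ∧ ∃ K : NNReal, ∃ g : ℝ → ℝ, LipschitzWith K g ∧
          ∀ x ∈ Metric.ball p r,
            (x ∈ Ω ↔ g (@inner ℝ (EuclideanSpace ℝ (Fin 2)) _ x e)
              < @inner ℝ (EuclideanSpace ℝ (Fin 2)) _ x f)) →
    ∀ (lam c : ℝ) (u : EuclideanSpace ℝ (Fin 2) → ℝ)
      (G : EuclideanSpace ℝ (Fin 2) → EuclideanSpace ℝ (Fin 2)),
      0 < lam →
      MeasureTheory.MemLp u 2 (MeasureTheory.volume.restrict Ω) →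
      MeasureTheory.MemLp G 2 (MeasureTheory.volume.restrict Ω) →
      (∀ φ : EuclideanSpace ℝ (Fin 2) → ℝ, ContDiff ℝ 1 φ → HasCompactSupport φ →
        ∀ v : EuclideanSpace ℝ (Fin 2),
          ∫ x in Ω, (u x - c) * (fderiv ℝ φ x v)
            = - ∫ x in Ω, @inner ℝ (EuclideanSpace ℝ (Fin 2)) _ (G x) v * φ x) →
      (∀ φ : EuclideanSpace ℝ (Fin 2) → ℝ, ContDiff ℝ 1 φ → HasCompactSupport φ →
          ∫ x in Ω, fderiv ℝ φ x (G x) = lam * ∫ x in Ω, u x * φ x) →
      ¬ (u =ᵐ[MeasureTheory.volume.restrict Ω] 0) →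
      ∃ (a : EuclideanSpace ℝ (Fin 2)) (r : ℝ), Ω = Metric.ball a r) := by
  have hRpos : 0 < R := one_pos.trans hR
  have hκ0 : 0 ≤ κ := (norm_nonneg _).trans (hd 0 (Metric.mem_ball_self hRpos))
  have ht : 0 < t := hκ0.trans_lt hκ
  obtain ⟨Φ, hΦs, hΦf⟩ := exists_oph hRpos hκ hf hd
  have hcb : Metric.closedBall (0 : ℂ) 1 ⊆ Metric.ball 0 R := Metric.closedBall_subset_ball hR
  have hb : Metric.ball (0 : ℂ) 1 ⊆ Metric.ball 0 R := Metric.ball_subset_closedBall.trans hcb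
  have hder : ∀ z ∈ Metric.ball (0 : ℂ) R, HasDerivAt f (deriv f z) z := fun z hz =>
    ((hf z hz).differentiableAt (Metric.isOpen_ball.mem_nhds hz)).hasDerivAt
  have hdne : ∀ z ∈ Metric.ball (0 : ℂ) R, deriv f z ≠ 0 := by
    intro z hz h
    have h1 := hd z hz
    rw [h, zero_sub, norm_neg, Complex.norm_real, Real.norm_eq_abs, abs_of_pos ht] at h1
    linarith
  -- the map to the plane
  set Ψ : OpenPartialHomeomorph ℂ (EuclideanSpace ℝ (Fin 2)) :=
    Φ.transHomeomorph io.toHomeomorph with hΨ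
  have hΨa : ∀ z, Ψ z = io (f z) := fun z => by
    rw [← hΦf]; rfl
  have hΨs : ∀ x, Ψ.symm x = Φ.symm (io.symm x) := fun x => rfl
  have hΨsrc : Ψ.source = Metric.ball 0 R := hΦs
  have hΨtgt : ∀ x, x ∈ Ψ.target ↔ io.symm x ∈ Φ.target := fun x => Iff.rfl
  have hs : Metric.closedBall (0 : ℂ) 1 ⊆ Ψ.source := by rw [hΨsrc]; exact hcb
  -- the inverse function
  have hinv : ∀ w ∈ Φ.target, HasDerivAt Φ.symm (deriv f (Φ.symm w))⁻¹ w := by
    intro w hw
    have hz : Φ.symm w ∈ Metric.ball (0 : ℂ) R := by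
      rw [← hΦs]
      exact Φ.map_target hw
    refine Φ.hasDerivAt_symm hw (hdne _ hz) ?_
    rw [hΦf]
    exact hder _ hz
  have hinvA : ∀ w ∈ Φ.target, AnalyticAt ℂ Φ.symm w := by
    intro w hw
    have h1 : DifferentiableOn ℂ Φ.symm Φ.target := fun w hw =>
      (hinv w hw).differentiableAt.differentiableWithinAt
    exact h1.analyticAt (Φ.open_target.mem_nhds hw)
  -- the function
  set V : ℂ → ℝ := fun w => U (Φ.symm w) with hV
  set u : (EuclideanSpace ℝ (Fin 2)) → ℝ := fun x => V (io.symm x) with hu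
  have hVc : ∀ w ∈ Φ.target, ContDiffAt ℝ 2 V w := by
    intro w hw
    have hz : Φ.symm w ∈ Metric.ball (0 : ℂ) R := by
      rw [← hΦs]
      exact Φ.map_target hw
    have h1 : ContDiffAt ℝ 2 U (Φ.symm w) := hU.contDiffAt (Metric.isOpen_ball.mem_nhds hz)
    have h2 : ContDiffAt ℝ 2 Φ.symm w := ((hinvA w hw).contDiffAt (n := 2)).restrict_scalars ℝ
    exact h1.comp w h2
  have huc : ContDiffOn ℝ 2 u Ψ.target := by
    intro x hx
    have h1 := hVc _ ((hΨtgt x).1 hx)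
    have h2 : ContDiffAt ℝ 2 io.symm x := io.symm.contDiff.contDiffAt
    exact (h1.comp x h2).contDiffWithinAt
  set Ω : Set (EuclideanSpace ℝ (Fin 2)) := Ψ '' Metric.ball (0 : ℂ) 1 with hΩ
  have hcl : closure Ω ⊆ Ψ.target := by
    rw [hΩ, top_closure Ψ hs]
    rintro _ ⟨z, hz, rfl⟩
    exact Ψ.map_source (hs hz)
  have hfr : frontier Ω = Ψ '' Metric.sphere (0 : ℂ) 1 := top_frontier Ψ hs
  have hnull : volume (frontier Ω) = 0 := by
    refine top_null Ψ hs ?_
    intro z hz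
    rw [hΨsrc] at hz
    have h1 : DifferentiableAt ℝ f z := (hder z hz).differentiableAt.restrictScalars ℝ
    have h2 : DifferentiableAt ℝ (fun z => io (f z)) z := io.differentiableAt.comp z h1
    have h3 : (Ψ : ℂ → (EuclideanSpace ℝ (Fin 2))) = fun z => io (f z) := funext hΨa
    rw [h3]
    exact h2.differentiableWithinAt
  -- derivative of `u`
  have hufd : ∀ (x : (EuclideanSpace ℝ (Fin 2))) (v : ℂ), fderiv ℝ u x (io v) = fderiv ℝ V (io.symm x) v := by
    intro x v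
    have h1 : u = V ∘ io.symm.toContinuousLinearEquiv := rfl
    rw [h1, ContinuousLinearEquiv.comp_right_fderiv]
    simp only [ContinuousLinearMap.comp_apply]
    congr 1
    exact io.symm_apply_apply v
  have h0 : ∀ x ∈ frontier Ω, u x = c ∧ fderiv ℝ u x = 0 := by
    intro x hx
    rw [hfr] at hx
    obtain ⟨z, hz, rfl⟩ := hx
    have hz1 : ‖z‖ = 1 := mem_sphere_zero_iff_norm.1 hz
    have hzR : z ∈ Φ.source := by
      rw [hΦs]; exact hcb (Metric.sphere_subset_closedBall hz)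
    have hsy : io.symm (Ψ z) = Φ z := by
      rw [hΨa, hΦf]; exact io.symm_apply_apply _
    have hsz : Φ.symm (io.symm (Ψ z)) = z := by
      rw [hsy]; exact Φ.left_inv hzR
    have hfV : fderiv ℝ V (io.symm (Ψ z)) = 0 := by
      rw [hsy]
      have hzt : Φ z ∈ Φ.target := Φ.map_source hzR
      have h1 : HasFDerivAt U (fderiv ℝ U (Φ.symm (Φ z))) (Φ.symm (Φ z)) := by
        rw [Φ.left_inv hzR]
        have : ContDiffAt ℝ 2 U z := hU.contDiffAt (Metric.isOpen_ball.mem_nhds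
          (hcb (Metric.sphere_subset_closedBall hz)))
        exact (this.differentiableAt (by norm_num)).hasFDerivAt
      have h2 : DifferentiableAt ℝ Φ.symm (Φ z) :=
        (hinv _ hzt).differentiableAt.restrictScalars ℝ
      have h3 := (h1.comp (Φ z) h2.hasFDerivAt).fderiv
      have h4 : V = U ∘ Φ.symm := rfl
      rw [h4, h3, Φ.left_inv hzR, (hbd z hz1).2, ContinuousLinearMap.zero_comp]
    refine ⟨?_, ?_⟩
    · show U (Φ.symm (io.symm (Ψ z))) = c
      rw [hsz]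
      exact (hbd z hz1).1
    · ext y
      obtain ⟨v, rfl⟩ := io.surjective y
      rw [hufd, hfV]
      rfl
  have hlap : ∀ x ∈ Ω, ∑ i : Fin 2, fderiv ℝ (fun y => fderiv ℝ u y (EuclideanSpace.single i 1)) x
      (EuclideanSpace.single i 1) = -(lam * u x) := by
    rintro _ ⟨z, hz, rfl⟩
    have hzR : z ∈ Φ.source := by
      rw [hΦs]; exact hb hz
    have hsy : io.symm (Ψ z) = Φ z := by
      rw [hΨa, hΦf]; exact io.symm_apply_apply _
    have hzt : Φ z ∈ Φ.target := Φ.map_source hzR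
    have e0 : (EuclideanSpace.single (0 : Fin 2) (1 : ℝ) : (EuclideanSpace ℝ (Fin 2))) = io 1 := by
      ext i
      fin_cases i <;> simp [io]
    have e1 : (EuclideanSpace.single (1 : Fin 2) (1 : ℝ) : (EuclideanSpace ℝ (Fin 2))) = io Complex.I := by
      ext i
      fin_cases i <;> simp [io]
    have h2 : ∀ v : ℂ, fderiv ℝ (fun y => fderiv ℝ u y (io v)) (Ψ z) (io v) =
        fderiv ℝ (fun w => fderiv ℝ V w v) (Φ z) v := by
      intro v
      have h3 : (fun y => fderiv ℝ u y (io v)) =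
          (fun w => fderiv ℝ V w v) ∘ io.symm.toContinuousLinearEquiv := by
        funext y
        rw [hufd]
        rfl
      rw [h3, ContinuousLinearEquiv.comp_right_fderiv]
      simp only [ContinuousLinearMap.comp_apply]
      have h4 : (io.symm.toContinuousLinearEquiv : (EuclideanSpace ℝ (Fin 2)) → ℂ) (Ψ z) = Φ z := hsy
      rw [h4]
      congr 1
      exact io.symm_apply_apply v
    rw [Fin.sum_univ_two, e0, e1, h2, h2]
    have h5 : lap V (Φ z) = ‖deriv Φ.symm (Φ z)‖ ^ 2 * lap U (Φ.symm (Φ z)) := by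
      refine lap_comp ?_ (hinvA _ hzt)
      rw [Φ.left_inv hzR]
      exact hU.contDiffAt (Metric.isOpen_ball.mem_nhds (hb hz))
    have h6 : lap V (Φ z) = -(lam * U z) := by
      rw [h5, (hinv _ hzt).deriv, Φ.left_inv hzR, heq z hz, norm_inv]
      have h7 : ‖deriv f z‖ ≠ 0 := norm_ne_zero_iff.2 (hdne z (hb hz))
      field_simp
    have h8 : u (Ψ z) = U z := by
      show U (Φ.symm (io.symm (Ψ z))) = U z
      rw [hsy, Φ.left_inv hzR]
    rw [h8, ← h6]
    rfl
  obtain ⟨hm1, hm2, hw1, hw2⟩ := weak (top_open Ψ hs) (top_bounded Ψ hs) Ψ.open_target hcl hnull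
    huc h0 hlap
  intro H
  -- the Lipschitz condition
  have hLip : ∀ p ∈ frontier Ω, ∃ e f : EuclideanSpace ℝ (Fin 2), ‖e‖ = 1 ∧ ‖f‖ = 1 ∧
        @inner ℝ (EuclideanSpace ℝ (Fin 2)) _ e f = 0 ∧
        ∃ r : ℝ, 0 < r ∧ ∃ K : NNReal, ∃ g : ℝ → ℝ, LipschitzWith K g ∧
          ∀ x ∈ Metric.ball p r,
            (x ∈ Ω ↔ g (@inner ℝ (EuclideanSpace ℝ (Fin 2)) _ x e)
              < @inner ℝ (EuclideanSpace ℝ (Fin 2)) _ x f) := by
    intro p hp
    have hpt : p ∈ Ψ.target := hcl (frontier_subset_closure hp)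
    rw [hfr] at hp
    obtain ⟨z0, hz0, rfl⟩ := hp
    have hz1 : ‖z0‖ = 1 := mem_sphere_zero_iff_norm.1 hz0
    have hzR : z0 ∈ Ψ.source := hs (Metric.sphere_subset_closedBall hz0)
    have hsymm1 : ContDiffAt ℝ 1 Ψ.symm (Ψ z0) := by
      have h1 : ContDiffAt ℝ 1 Φ.symm (io.symm (Ψ z0)) :=
        ((hinvA _ ((hΨtgt _).1 hpt)).contDiffAt (n := 1)).restrict_scalars ℝ
      have h2 : ContDiffAt ℝ 1 io.symm (Ψ z0) := io.symm.contDiff.contDiffAt
      exact h1.comp (Ψ z0) h2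
    have hF : ContDiffAt ℝ 1 (fun x => ‖Ψ.symm x‖ ^ 2 - 1) (Ψ z0) :=
      (hsymm1.norm_sq ℝ).sub contDiffAt_const
    refine lip_graph (F := fun x => ‖Ψ.symm x‖ ^ 2 - 1) hF ?_ ?_ ?_
    · simp only [Ψ.left_inv hzR, hz1]
      norm_num
    · intro h
      have hΨd : DifferentiableAt ℝ Ψ z0 := by
        have h3 : (Ψ : ℂ → (EuclideanSpace ℝ (Fin 2))) = fun z => io (f z) := funext hΨa
        rw [h3]
        rw [hΨsrc] at hzR
        exact io.differentiableAt.comp z0 ((hder z0 hzR).differentiableAt.restrictScalars ℝ)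
      have h1 : HasFDerivAt (fun x => ‖Ψ.symm x‖ ^ 2 - 1)
          (fderiv ℝ (fun x => ‖Ψ.symm x‖ ^ 2 - 1) (Ψ z0)) (Ψ z0) :=
        (hF.differentiableAt (by norm_num)).hasFDerivAt
      have h2 := h1.comp z0 hΨd.hasFDerivAt
      rw [h, ContinuousLinearMap.zero_comp] at h2
      have h3 : (fun z : ℂ => ‖z‖ ^ 2 - 1) =ᶠ[𝓝 z0]
          ((fun x => ‖Ψ.symm x‖ ^ 2 - 1) ∘ Ψ) := by
        filter_upwards [Ψ.open_source.mem_nhds hzR] with z hz
        simp only [Function.comp_apply, Ψ.left_inv hz]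
      have h4 : HasFDerivAt (fun z : ℂ => ‖z‖ ^ 2 - 1) (0 : ℂ →L[ℝ] ℝ) z0 :=
        h2.congr_of_eventuallyEq h3
      have h5 : HasFDerivAt (fun z : ℂ => ‖z‖ ^ 2 - 1) (2 • (innerSL ℝ z0)) z0 :=
        ((hasStrictFDerivAt_norm_sq z0).hasFDerivAt).sub_const 1
      have h6 := h4.unique h5
      have h7 : (0 : ℂ →L[ℝ] ℝ) z0 = (2 • (innerSL ℝ z0)) z0 := by rw [← h6]
      simp only [zero_apply, smul_apply, innerSL_apply_apply, real_inner_self_eq_norm_sq, hz1] at h7
      norm_num at h7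
    · filter_upwards [Ψ.open_target.mem_nhds hpt] with x hx
      constructor
      · rintro ⟨z, hz, rfl⟩
        rw [Ψ.left_inv (hs (Metric.ball_subset_closedBall hz))]
        rw [mem_ball_zero_iff] at hz
        nlinarith [norm_nonneg z]
      · intro hlt
        refine ⟨Ψ.symm x, ?_, Ψ.right_inv hx⟩
        rw [mem_ball_zero_iff]
        nlinarith [norm_nonneg (Ψ.symm x)]
  have hu0 : ¬ (u =ᵐ[volume.restrict Ω] 0) := by
    intro h
    have h1 := Measure.eqOn_open_of_ae_eq h (top_open Ψ hs)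
      (huc.continuousOn.mono (subset_closure.trans hcl)) continuousOn_const
    obtain ⟨z, hz, hz0⟩ := hne
    have h2 := h1 (mem_image_of_mem Ψ hz)
    have hzR : z ∈ Φ.source := by
      rw [hΦs]; exact hb hz
    have hsy : io.symm (Ψ z) = Φ z := by
      rw [hΨa, hΦf]; exact io.symm_apply_apply _
    have h8 : u (Ψ z) = U z := by
      show U (Φ.symm (io.symm (Ψ z))) = U z
      rw [hsy, Φ.left_inv hzR]
    rw [h8] at h2
    exact hz0 h2
  obtain ⟨a, r, har⟩ := H Ω (top_open Ψ hs) (top_bounded Ψ hs) (top_connected Ψ hs)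
    (top_simply Ψ hs) (top_circle Ψ hs) hLip lam c u (gradient u) hlam hm1 hm2 hw1 hw2 hu0
  -- the domain is not a disc
  have hf0 : f 0 = 0 := by
    have h1 := hsym 0 (Metric.mem_ball_self one_pos)
    rw [mul_zero] at h1
    have h2 : (ω - 1) * f 0 = 0 := by rw [sub_mul, one_mul, ← h1, sub_self]
    exact (mul_eq_zero.1 h2).resolve_left (sub_ne_zero.2 hω1)
  have hr : 0 < r := by
    have h1 : Ψ 0 ∈ Ω := mem_image_of_mem _ (Metric.mem_ball_self one_pos)
    rw [har] at h1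
    exact Metric.pos_of_mem_ball h1
  have hmem : ∀ w : ℂ, w ∈ Metric.ball (io.symm a) r ↔ io w ∈ Metric.ball a r := by
    intro w
    rw [Metric.mem_ball, Metric.mem_ball]
    have h1 : dist (io w) a = dist w (io.symm a) := by
      conv_lhs => rw [← io.apply_symm_apply a]
      exact io.dist_map _ _
    rw [h1]
  have hb0 : io.symm a = 0 := by
    refine centre_zero hr hω hω1 fun p hp => ?_
    rw [hmem] at hp ⊢
    rw [← har] at hp ⊢
    obtain ⟨z, hz, hzp⟩ := hp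
    refine ⟨ω * z, ?_, ?_⟩
    · rw [mem_ball_zero_iff] at hz ⊢
      rwa [norm_mul, hω, one_mul]
    · rw [hΨa] at hzp ⊢
      rw [hsym z hz, io.injective hzp]
  have ha0 : a = 0 := by
    have := congrArg io hb0
    rwa [io.apply_symm_apply, map_zero] at this
  have hcirc : ∀ z : ℂ, ‖z‖ = 1 → ‖f z‖ = r := by
    intro z hz
    have h1 : Ψ z ∈ frontier Ω := by
      rw [hfr]
      exact mem_image_of_mem _ (mem_sphere_zero_iff_norm.2 hz)
    rw [har, ha0, frontier_ball _ hr.ne', mem_sphere_zero_iff_norm, hΨa, io.norm_map] at h1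
    exact h1
  have hinj : InjOn f (Metric.ball 0 R) := by
    rw [← hΦs, ← hΦf]
    exact Φ.injOn
  exact hnon (nb hR hf hinj hf0 (hdne 0 (Metric.mem_ball_self hRpos)) hr hcirc)

end Pool.Agent.N563.SC
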