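import Mathlib

/-!
Project SC (helper229), problem MP_83fd13_an: from a classical solution of the overdetermined problem on
a neighbourhood of the closure of a bounded open set to the weak formulation. helper563.
-/

set_option autoImplicit false

open Set Filter Topology MeasureTheory

namespace Pool.Agent.N563.SC

/-- The plane. -/
abbrev E2 := EuclideanSpace ℝ (Fin 2)

/-- If a segment starting in `Ω` leaves `Ω` then `f` is small at the starting point. -/
theorem abs_le_of_exit {Ω U : Set E2} (hΩ : IsOpen Ω) (hU : IsOpen U) (hcl : closure Ω ⊆ U)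
    {f : E2 → ℝ} (hf : ContDiffOn ℝ 1 f U) (h0 : ∀ x ∈ frontier Ω, f x = 0) {K : ℝ} (hK : 0 ≤ K)
    (hb : ∀ x ∈ closure Ω, ‖fderiv ℝ f x‖ ≤ K) {x y : E2} (hx : x ∈ Ω)
    (hseg : ¬ ∀ t ∈ Icc (0 : ℝ) 1, x + t • (y - x) ∈ Ω) : |f x| ≤ K * ‖x - y‖ := by
  have hdiff : ∀ z ∈ U, DifferentiableAt ℝ f z := fun z hz =>
    (hf.contDiffAt (hU.mem_nhds hz)).differentiableAt (by norm_num)
  set S : Set ℝ := Icc (0 : ℝ) 1 ∩ (fun t : ℝ => x + t • (y - x)) ⁻¹' Ωᶜ with hS
  have hSne : S.Nonempty := by
    push Not at hseg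
    obtain ⟨t, ht, hn⟩ := hseg
    exact ⟨t, ht, hn⟩
  have hcont : Continuous (fun t : ℝ => x + t • (y - x)) := by fun_prop
  have hScl : IsClosed S := isClosed_Icc.inter (hΩ.isClosed_compl.preimage hcont)
  have hSbd : BddBelow S := ⟨0, fun t ht => ht.1.1⟩
  set t0 := sInf S with ht0
  have ht0S : t0 ∈ S := hScl.csInf_mem hSne hSbd
  have hlt : ∀ t ∈ Ico (0 : ℝ) t0, x + t • (y - x) ∈ Ω := by
    intro t ht
    by_contra hn
    have : t ∈ S := ⟨⟨ht.1, ht.2.le.trans ht0S.1.2⟩, hn⟩
    exact absurd (csInf_le hSbd this) (not_le.2 ht.2)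
  have ht0pos : 0 < t0 := by
    rcases ht0S.1.1.lt_or_eq with h | h
    · exact h
    · exfalso
      have := ht0S.2
      rw [← h] at this
      simp only [mem_preimage, zero_smul, add_zero, mem_compl_iff] at this
      exact this hx
  set z := x + t0 • (y - x) with hz
  have hzcl : z ∈ closure Ω := by
    have h1 : z ∈ (fun t : ℝ => x + t • (y - x)) '' closure (Ico (0 : ℝ) t0) := by
      refine ⟨t0, ?_, rfl⟩
      rw [closure_Ico ht0pos.ne]
      exact ⟨ht0pos.le, le_rfl⟩
    have h2 := image_closure_subset_closure_image hcont h1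
    refine closure_mono ?_ h2
    rintro _ ⟨t, ht, rfl⟩
    exact hlt t ht
  have hzfr : z ∈ frontier Ω := by
    rw [hΩ.frontier_eq]
    exact ⟨hzcl, ht0S.2⟩
  have hsegcl : segment ℝ x z ⊆ closure Ω := by
    rw [segment_eq_image']
    rintro _ ⟨s, hs, rfl⟩
    have e : x + s • (z - x) = x + (s * t0) • (y - x) := by
      rw [hz, add_sub_cancel_left, smul_smul]
    show x + s • (z - x) ∈ closure Ω
    rw [e]
    rcases hs.2.lt_or_eq with h | h
    · refine subset_closure (hlt _ ⟨by have := hs.1; positivity, ?_⟩)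
      nlinarith
    · rw [h, one_mul]
      exact hzcl
  have hmv := (convex_segment (𝕜 := ℝ) x z).norm_image_sub_le_of_norm_fderiv_le
    (f := f) (C := K) (fun w hw => hdiff w (hcl (hsegcl hw))) (fun w hw => hb w (hsegcl hw))
    (right_mem_segment ℝ x z) (left_mem_segment ℝ x z)
  rw [h0 z hzfr, sub_zero, Real.norm_eq_abs] at hmv
  refine hmv.trans (mul_le_mul_of_nonneg_left ?_ hK)
  have e2 : x - z = t0 • (x - y) := by
    rw [hz, sub_add_eq_sub_sub, sub_self, zero_sub, ← smul_neg, neg_sub]
  rw [e2, norm_smul, Real.norm_eq_abs, abs_of_pos ht0pos]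
  calc t0 * ‖x - y‖ ≤ 1 * ‖x - y‖ := mul_le_mul_of_nonneg_right ht0S.1.2 (norm_nonneg _)
    _ = ‖x - y‖ := one_mul _

/-- The extension by zero is Lipschitz. -/
theorem lipschitz_indicator {Ω U : Set E2} (hΩ : IsOpen Ω) (hbd : Bornology.IsBounded Ω)
    (hU : IsOpen U) (hcl : closure Ω ⊆ U) {f : E2 → ℝ} (hf : ContDiffOn ℝ 1 f U)
    (h0 : ∀ x ∈ frontier Ω, f x = 0) : ∃ C, LipschitzWith C (Ω.indicator f) := by
  have hcomp : IsCompact (closure Ω) := hbd.isCompact_closure
  have hcont : ContinuousOn (fun x => ‖fderiv ℝ f x‖) (closure Ω) :=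
    ((hf.continuousOn_fderiv_of_isOpen hU (by norm_num)).mono hcl).norm
  obtain ⟨K0, hK0⟩ := (hcomp.bddAbove_image hcont)
  set K := max K0 0 with hKdef
  have hK : 0 ≤ K := le_max_right _ _
  have hb : ∀ x ∈ closure Ω, ‖fderiv ℝ f x‖ ≤ K := fun x hx =>
    (hK0 ⟨x, hx, rfl⟩).trans (le_max_left _ _)
  have hdiff : ∀ z ∈ U, DifferentiableAt ℝ f z := fun z hz =>
    (hf.contDiffAt (hU.mem_nhds hz)).differentiableAt (by norm_num)
  have key : ∀ x y : E2, |Ω.indicator f x - Ω.indicator f y| ≤ (2 * K) * ‖x - y‖ := by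
    intro x y
    by_cases hx : x ∈ Ω
    · by_cases hy : y ∈ Ω
      · rw [indicator_of_mem hx, indicator_of_mem hy]
        by_cases hseg : ∀ t ∈ Icc (0 : ℝ) 1, x + t • (y - x) ∈ Ω
        · have hs : segment ℝ y x ⊆ closure Ω := by
            rw [segment_symm, segment_eq_image']
            rintro _ ⟨s, hs, rfl⟩
            exact subset_closure (hseg s hs)
          have hmv := (convex_segment (𝕜 := ℝ) y x).norm_image_sub_le_of_norm_fderiv_le
            (f := f) (C := K) (fun w hw => hdiff w (hcl (hs hw))) (fun w hw => hb w (hs hw))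
            (left_mem_segment ℝ y x) (right_mem_segment ℝ y x)
          rw [Real.norm_eq_abs] at hmv
          nlinarith [norm_nonneg (x - y)]
        · have h1 := abs_le_of_exit hΩ hU hcl hf h0 hK hb hx hseg
          have hseg' : ¬ ∀ t ∈ Icc (0 : ℝ) 1, y + t • (x - y) ∈ Ω := by
            intro h
            refine hseg fun t ht => ?_
            have := h (1 - t) ⟨by linarith [ht.2], by linarith [ht.1]⟩
            have e : y + (1 - t) • (x - y) = x + t • (y - x) := by
              module
            rwa [e] at this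
          have h2 := abs_le_of_exit hΩ hU hcl hf h0 hK hb hy hseg'
          rw [norm_sub_rev] at h2
          calc |f x - f y| ≤ |f x| + |f y| := abs_sub _ _
            _ ≤ 2 * K * ‖x - y‖ := by linarith
      · rw [indicator_of_mem hx, indicator_of_notMem hy, sub_zero]
        have hseg : ¬ ∀ t ∈ Icc (0 : ℝ) 1, x + t • (y - x) ∈ Ω := by
          intro h
          have := h 1 ⟨zero_le_one, le_rfl⟩
          rw [one_smul, add_sub_cancel] at this
          exact hy this
        have h1 := abs_le_of_exit hΩ hU hcl hf h0 hK hb hx hseg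
        nlinarith [norm_nonneg (x - y)]
    · by_cases hy : y ∈ Ω
      · rw [indicator_of_notMem hx, indicator_of_mem hy, zero_sub, abs_neg]
        have hseg : ¬ ∀ t ∈ Icc (0 : ℝ) 1, y + t • (x - y) ∈ Ω := by
          intro h
          have := h 1 ⟨zero_le_one, le_rfl⟩
          rw [one_smul, add_sub_cancel] at this
          exact hx this
        have h1 := abs_le_of_exit hΩ hU hcl hf h0 hK hb hy hseg
        rw [norm_sub_rev] at h1
        nlinarith [norm_nonneg (x - y)]
      · rw [indicator_of_notMem hx, indicator_of_notMem hy, sub_zero, abs_zero]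
        positivity
  refine ⟨⟨2 * K, by positivity⟩, LipschitzWith.of_dist_le_mul fun x y => ?_⟩
  rw [Real.dist_eq, dist_eq_norm]
  exact key x y

/-- Integration by parts for functions vanishing on the boundary. -/
theorem parts {Ω U : Set E2} (hΩ : IsOpen Ω) (hbd : Bornology.IsBounded Ω)
    (hU : IsOpen U) (hcl : closure Ω ⊆ U) (hnull : volume (frontier Ω) = 0) {f : E2 → ℝ}
    (hf : ContDiffOn ℝ 1 f U) (h0 : ∀ x ∈ frontier Ω, f x = 0) {φ : E2 → ℝ}
    (hφ : ContDiff ℝ 1 φ) (hφc : HasCompactSupport φ) (v : E2) :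
    ∫ x in Ω, f x * fderiv ℝ φ x v = - ∫ x in Ω, fderiv ℝ f x v * φ x := by
  obtain ⟨C, hC⟩ := lipschitz_indicator hΩ hbd hU hcl hf h0
  obtain ⟨D, hD⟩ := ContDiff.lipschitzWith_of_hasCompactSupport hφc hφ one_ne_zero
  have h := hC.integral_lineDeriv_mul_eq (μ := volume) hD hφc v
  have hl : ∫ x, lineDeriv ℝ (Ω.indicator f) x v * φ x = ∫ x in Ω, fderiv ℝ f x v * φ x := by
    rw [← integral_indicator hΩ.measurableSet]
    refine integral_congr_ae ?_
    have hae : ∀ᵐ x : E2, x ∉ frontier Ω := measure_eq_zero_iff_ae_notMem.1 hnull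
    filter_upwards [hae] with x hx
    by_cases hxΩ : x ∈ Ω
    · rw [indicator_of_mem hxΩ]
      have hev : Ω.indicator f =ᶠ[𝓝 x] f := by
        filter_upwards [hΩ.mem_nhds hxΩ] with y hy
        exact indicator_of_mem hy _
      have hd : DifferentiableAt ℝ f x := (hf.contDiffAt (hU.mem_nhds
        (hcl (subset_closure hxΩ)))).differentiableAt (by norm_num)
      rw [hev.lineDeriv_eq, hd.lineDeriv_eq_fderiv]
    · rw [indicator_of_notMem hxΩ]
      have hxcl : x ∉ closure Ω := by
        intro h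
        exact hx (by rw [hΩ.frontier_eq]; exact ⟨h, hxΩ⟩)
      have hev : Ω.indicator f =ᶠ[𝓝 x] fun _ => (0 : ℝ) := by
        filter_upwards [isClosed_closure.isOpen_compl.mem_nhds hxcl] with y hy
        exact indicator_of_notMem (fun h => hy (subset_closure h)) _
      rw [hev.lineDeriv_eq]
      simp [lineDeriv]
  have hr : ∫ x, lineDeriv ℝ φ x (-v) * Ω.indicator f x = - ∫ x in Ω, f x * fderiv ℝ φ x v := by
    rw [← integral_neg, ← integral_indicator hΩ.measurableSet]
    refine integral_congr_ae (Eventually.of_forall fun x => ?_)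
    have hd : DifferentiableAt ℝ φ x := hφ.differentiable one_ne_zero x
    by_cases hxΩ : x ∈ Ω
    · simp only [indicator_of_mem hxΩ, hd.lineDeriv_eq_fderiv, map_neg]
      ring
    · simp only [indicator_of_notMem hxΩ, mul_zero]
  rw [hl, hr] at h
  rw [h, neg_neg]

/-- The weak formulation. -/
theorem weak {Ω U : Set E2} (hΩ : IsOpen Ω) (hbd : Bornology.IsBounded Ω)
    (hU : IsOpen U) (hcl : closure Ω ⊆ U) (hnull : volume (frontier Ω) = 0) {u : E2 → ℝ}
    (hu : ContDiffOn ℝ 2 u U) {lam c : ℝ} (h0 : ∀ x ∈ frontier Ω, u x = c ∧ fderiv ℝ u x = 0)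
    (hlap : ∀ x ∈ Ω, ∑ i : Fin 2, fderiv ℝ (fun y => fderiv ℝ u y (EuclideanSpace.single i 1)) x
      (EuclideanSpace.single i 1) = -(lam * u x)) :
    MemLp u 2 (volume.restrict Ω) ∧ MemLp (gradient u) 2 (volume.restrict Ω) ∧
    (∀ φ : E2 → ℝ, ContDiff ℝ 1 φ → HasCompactSupport φ → ∀ v : E2,
      ∫ x in Ω, (u x - c) * (fderiv ℝ φ x v) = - ∫ x in Ω, @inner ℝ E2 _ (gradient u x) v * φ x) ∧
    (∀ φ : E2 → ℝ, ContDiff ℝ 1 φ → HasCompactSupport φ →
      ∫ x in Ω, fderiv ℝ φ x (gradient u x) = lam * ∫ x in Ω, u x * φ x) := by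
  have hcomp : IsCompact (closure Ω) := hbd.isCompact_closure
  have hu1 : ContDiffOn ℝ 1 u U := hu.of_le (by norm_num)
  have hfd : ContDiffOn ℝ 1 (fderiv ℝ u) U := hu.fderiv_of_isOpen hU (by norm_num)
  have hgr : ContinuousOn (gradient u) U := by
    have : gradient u = fun x => (InnerProductSpace.toDual ℝ E2).symm (fderiv ℝ u x) := rfl
    rw [this]
    exact (LinearIsometryEquiv.continuous _).comp_continuousOn hfd.continuousOn
  have hinner : ∀ x v, @inner ℝ E2 _ (gradient u x) v = fderiv ℝ u x v := by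
    intro x v
    rw [gradient, InnerProductSpace.toDual_symm_apply]
  have hfin : volume (closure Ω) < ⊤ := hcomp.measure_lt_top
  have hmem : ∀ {F : Type} [NormedAddCommGroup F] (g : E2 → F), ContinuousOn g (closure Ω) →
      (∃ C, ∀ x ∈ closure Ω, ‖g x‖ ≤ C) → AEStronglyMeasurable g (volume.restrict Ω) →
      MemLp g 2 (volume.restrict Ω) := by
    intro F _ g _ ⟨C, hC⟩ hm
    have : IsFiniteMeasure (volume.restrict Ω) := ⟨by
      rw [Measure.restrict_apply_univ]
      exact (measure_mono subset_closure).trans_lt hfin⟩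
    refine MemLp.of_bound hm C ?_
    rw [ae_restrict_iff' hΩ.measurableSet]
    exact Eventually.of_forall fun x hx => hC x (subset_closure hx)
  refine ⟨?_, ?_, ?_, ?_⟩
  · refine hmem u (hu.continuousOn.mono hcl) ?_ ?_
    · obtain ⟨C, hC⟩ := hcomp.exists_bound_of_continuousOn (hu.continuousOn.mono hcl)
      exact ⟨C, hC⟩
    · exact (hu.continuousOn.mono (subset_closure.trans hcl)).aestronglyMeasurable hΩ.measurableSet
  · refine hmem (gradient u) (hgr.mono hcl) ?_ ?_
    · obtain ⟨C, hC⟩ := hcomp.exists_bound_of_continuousOn (hgr.mono hcl)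
      exact ⟨C, hC⟩
    · exact (hgr.mono (subset_closure.trans hcl)).aestronglyMeasurable hΩ.measurableSet
  · intro φ hφ hφc v
    have h := parts hΩ hbd hU hcl hnull (f := fun x => u x - c) (hu1.sub contDiffOn_const)
      (fun x hx => by rw [(h0 x hx).1, sub_self]) hφ hφc v
    rw [h]
    congr 1
    refine integral_congr_ae (Eventually.of_forall fun x => ?_)
    simp only [hinner]
    rw [fderiv_sub_const]
  · intro φ hφ hφc
    set e : Fin 2 → E2 := fun i => EuclideanSpace.single i 1 with he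
    set gi : Fin 2 → E2 → ℝ := fun i x => fderiv ℝ u x (e i) with hgi
    have hgc : ∀ i, ContDiffOn ℝ 1 (gi i) U := fun i => hfd.clm_apply contDiffOn_const
    have hparts : ∀ i, ∫ x in Ω, gi i x * fderiv ℝ φ x (e i) =
        - ∫ x in Ω, fderiv ℝ (gi i) x (e i) * φ x := fun i =>
      parts hΩ hbd hU hcl hnull (hgc i) (fun x hx => by simp only [hgi, (h0 x hx).2]; rfl) hφ hφc _
    have hexp : ∀ x, fderiv ℝ φ x (gradient u x) = ∑ i, gi i x * fderiv ℝ φ x (e i) := by
      intro x
      have h1 : gradient u x = ∑ i, (@inner ℝ E2 _ (e i) (gradient u x)) • e i := by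
        have := (EuclideanSpace.basisFun (Fin 2) ℝ).sum_repr' (gradient u x)
        simp only [EuclideanSpace.basisFun_apply] at this
        exact this.symm
      conv_lhs => rw [h1]
      rw [map_sum]
      refine Finset.sum_congr rfl fun i _ => ?_
      rw [map_smul, smul_eq_mul, real_inner_comm, hinner]
    have : IsFiniteMeasure (volume.restrict Ω) := ⟨by
      rw [Measure.restrict_apply_univ]
      exact (measure_mono subset_closure).trans_lt hfin⟩
    have hint : ∀ g : E2 → ℝ, ContinuousOn g (closure Ω) → Integrable g (volume.restrict Ω) := by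
      intro g hg
      exact (hg.integrableOn_compact hcomp).mono_set subset_closure
    have hφd : Continuous fun x => fderiv ℝ φ x := hφ.continuous_fderiv one_ne_zero
    have hint1 : ∀ i ∈ Finset.univ, Integrable (fun x => gi i x * fderiv ℝ φ x (e i))
        (volume.restrict Ω) := by
      intro i _
      refine hint _ (((hgc i).continuousOn.mono hcl).mul ?_)
      exact (hφd.clm_apply continuous_const).continuousOn
    have hint2 : ∀ i ∈ Finset.univ, Integrable (fun x => fderiv ℝ (gi i) x (e i) * φ x)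
        (volume.restrict Ω) := by
      intro i _
      refine hint _ (ContinuousOn.mul ?_ hφ.continuous.continuousOn)
      exact (((hgc i).continuousOn_fderiv_of_isOpen hU (by norm_num)).mono hcl).clm_apply
        continuousOn_const
    calc ∫ x in Ω, fderiv ℝ φ x (gradient u x)
        = ∫ x in Ω, ∑ i, gi i x * fderiv ℝ φ x (e i) := by simp only [hexp]
      _ = ∑ i, ∫ x in Ω, gi i x * fderiv ℝ φ x (e i) := integral_finsetSum _ hint1
      _ = ∑ i, - ∫ x in Ω, fderiv ℝ (gi i) x (e i) * φ x := by simp only [hparts]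
      _ = - ∫ x in Ω, ∑ i, fderiv ℝ (gi i) x (e i) * φ x := by
          rw [Finset.sum_neg_distrib, integral_finsetSum _ hint2]
      _ = - ∫ x in Ω, -(lam * (u x * φ x)) := by
          congr 1
          refine setIntegral_congr_fun hΩ.measurableSet fun x hx => ?_
          simp only [← Finset.sum_mul]
          rw [hlap x hx]
          ring
      _ = lam * ∫ x in Ω, u x * φ x := by
          rw [integral_neg, neg_neg, integral_const_mul]

end Pool.Agent.N563.SC
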